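import Pool.Agent.Y92.ZX.Stm4
import Pool.Agent.Y226.ZM.L2

/-!
# All coordinates are good: an isogeny and a multiplicative relation
-/

set_option autoImplicit false
set_option linter.unusedSectionVars false

open UpperHalfPlane H294ZP Polynomial IsDedekindDomain NumberField

namespace Pool.Agent.Y839.ZX

open Pool.Agent.Y226 Pool.Agent.Y226.ZG Pool.Agent.Y226.ZM Pool.Agent.Y226.ZU Pool.Agent.Y92.ZX

/-- all coordinates are good, an isogeny and a multiplicative relation -/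
theorem lmix (hWG : S_WGEN) (hTM : S_TMIX) (hOR : S_ORD) : S_LMIX := by
  classical
  intro C _ _ _ _ _ p hpf k 𝕜 _ _ _ _ n N W M d D B₀ 𝓛 b hb hb0 ν hν
  obtain ⟨κ, hκ⟩ := 𝓛.exists_kap
  have hM := 𝓛.hM
  have hN := 𝓛.hN
  let J := Fin n × Fin n × Fin (W + 1) × Fin (W + 1)
  have hT : ∀ q : J, ∃ T : Set (Fin n → k), T.Finite ∧ (q.1 ≠ q.2.1 → b q.2.1 = 0 →
      0 < (q.2.2.2 : ℕ) →
      𝓛.Λ q.2.1 ^ (q.2.2.2 : ℕ) * (𝓛.Λ q.1 ^ (q.2.2.1 : ℕ))⁻¹ ∈ GG C p 0 le_rfl one_pos →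
      ∀ (x : Fin n → C), 𝓛.Pt x → ∀ (xO : Fin n → OO C)
      (Y : Fin n → Cˣ), (∀ i, (xO i : C) = x i) → (∀ i, (Y i : C) = xO i) →
      (∀ i, ‖(xO i : C)‖ = 1) →
      ∀ (ζ ζ' : Cˣ) (f f' : ℕ), 0 < f → (ζ : C) ^ p ^ f = ζ → 0 < f' → (ζ' : C) ^ p ^ f' = ζ' →
      ‖((𝓛.Λ q.2.1 ^ (q.2.2.2 : ℕ) * (𝓛.Λ q.1 ^ (q.2.2.1 : ℕ))⁻¹ *
        (Y q.2.1 ^ (q.2.2.2 : ℕ) * (Y q.1 ^ (q.2.2.1 : ℕ))⁻¹) * ζ : Cˣ) : C) -
        (1 + p * ((q.2.2.2 : ℕ) * (κ q.2.1 * ((Y q.2.1 : Cˣ) : C)⁻¹) -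
          (q.2.2.1 : ℕ) * (κ q.1 * ((Y q.1 : Cˣ) : C)⁻¹)))‖ ≤ ‖(p : C)‖ ^ 2 →
      (ν : C) * ∏ i, x i ^ b i = ζ' →
      (fun i => 𝓛.red (xO i)) ∈ T) := by
    rintro ⟨j, l, A, B⟩
    by_cases h : j ≠ l ∧ b l = 0 ∧ 0 < (B : ℕ) ∧
        𝓛.Λ l ^ (B : ℕ) * (𝓛.Λ j ^ (A : ℕ))⁻¹ ∈ GG C p 0 le_rfl one_pos
    · obtain ⟨h1, h2, h3, h4⟩ := h
      obtain ⟨T, hT, hT'⟩ := hTM C p k 𝕜 n N W M d D B₀ 𝓛 κ j l A B h1 h3
        (Nat.lt_succ_iff.1 A.2) (Nat.lt_succ_iff.1 B.2) h4 b hb h2 hb0 ν hν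
      exact ⟨T, hT, fun _ _ _ _ => hT'⟩
    · exact ⟨∅, Set.finite_empty, fun h1 h2 h3 h4 => absurd ⟨h1, h2, h3, h4⟩ h⟩
  choose T hTfin hTmem using hT
  set S : Set k := ⋃ q : J × Fin n, (fun t : Fin n → k => t q.2) '' (T q.1) with hS
  have hSfin : S.Finite := Set.finite_iUnion fun q => (hTfin q.1).image _
  obtain ⟨G₁, hG₁⟩ := hOR C p k 𝕜 n N W M d D B₀ 𝓛 S hSfin
  refine ⟨W * W * (G₁ * p ^ 0) ^ 2, ?_⟩
  intro X x hx hX hall j l hjl hbj hbl τ w a b' c d' hdet hw hjτ hkw ζ o ho hζ hmul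
  have hx0 : ∀ i, x i ≠ 0 := fun i => norm_pos_iff.1 (by rw [hall]; exact one_pos)
  set Y : Fin n → Cˣ := fun i => Units.mk0 (x i) (hx0 i) with hY
  have hYx : ∀ i, (Y i : C) = x i := fun i => rfl
  obtain ⟨A, B, g', s, ζ', ε, hP, -⟩ := 𝓛.PB_of_rel hκ hX (hall j) (hall l) (hYx j) (hYx l)
    hdet hw hjτ hkw
  obtain ⟨o', t, ζ₂, ε₂, ho', hcop₂, hζ₂, hε₂, hζe⟩ := root_decomp (p := p) ho hζ
  have ho'0 : 0 < o' := Nat.pos_of_ne_zero (by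
    rintro rfl
    rw [zero_mul] at ho'
    omega)
  have hζ₂0 : ζ₂ ≠ 0 := hζ₂.ne_zero ho'0.ne'
  have hε₂0 : ε₂ ≠ 0 := hε₂.ne_zero (pow_pos hpf.out.pos _).ne'
  obtain ⟨f₁, hf₁, hff₁⟩ := fixed_of_pow_eq_one (p := p) hP.hcop hP.hζ.pow_eq_one
  obtain ⟨f₂, hf₂, hff₂⟩ := fixed_of_pow_eq_one (p := p) hcop₂ hζ₂.pow_eq_one
  -- monomials
  have hWM : W ≤ M := le_trans (by omega) hM
  have hv : Bv M (vec j l A B) := Bv_vec (hP.hAW.trans hWM) (hP.hBW.trans hWM) hjl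
  have hvw : LI (vec j l A B) b := LI_vec_off hjl hP.hB hbl hb0
  have hbn : ‖∏ i, x i ^ b i‖ = 1 := Loc.mon_norm fun i _ => hall i
  have hb0' : ∏ i, x i ^ b i ≠ 0 := norm_pos_iff.1 (by rw [hbn]; exact one_pos)
  set F₂ : Cˣ := Units.mk0 _ hb0' with hF₂
  have hF₁ : ((Y l ^ B * (Y j ^ A)⁻¹ : Cˣ) : C) = ∏ i, x i ^ vec j l A B i := by
    rw [prod_vec x hjl (hx0 j), Units.val_mul, Units.val_pow_eq_pow_val, Units.val_inv_eq_inv_val,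
      Units.val_pow_eq_pow_val, hYx, hYx]
  have hG₁' := hP.mem_GG (by rw [hYx]; exact hall j) (by rw [hYx]; exact hall l)
  -- the multiplicative relation
  have hζ₂G : Units.mk0 ζ₂ hζ₂0 ∈ GG C p ‖(p : C)‖ (norm_nonneg _) 𝓛.hp1 :=
    GG_of_close (w := ζ₂) (Nr_of_fixed hf₂ hff₂) (Loc.root_norm ho'0 hζ₂.pow_eq_one) (by simp)
  have hG₂' : F₂ * (Units.mk0 ε₂ hε₂0)⁻¹ ∈ GG C p ‖(p : C)‖ (norm_nonneg _) 𝓛.hp1 := by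
    have e1 : F₂ * (Units.mk0 ε₂ hε₂0)⁻¹ = ν⁻¹ * Units.mk0 ζ₂ hζ₂0 := by
      apply Units.ext
      have hν0 : (ν : C) ≠ 0 := ν.ne_zero
      rw [Units.val_mul, Units.val_mul, Units.val_inv_eq_inv_val, Units.val_inv_eq_inv_val]
      show (∏ i, x i ^ b i) * ε₂⁻¹ = (ν : C)⁻¹ * ζ₂
      have e2 : ∏ i, x i ^ b i = (ν : C)⁻¹ * (ζ₂ * ε₂) := by
        rw [← hζe, ← hmul]
        field_simp
      rw [e2]
      field_simp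
    rw [e1]
    exact mul_mem (inv_mem (GG_mono (norm_nonneg _) hν)) hζ₂G
  have hs0 : s = 0 ∧ t = 0 := by
    by_contra hcon
    rcases le_total t s with h12 | h12
    · have hs : s ≠ 0 := by rintro rfl; exact hcon ⟨rfl, by omega⟩
      obtain ⟨s', rfl⟩ : ∃ s', s = s' + 1 := ⟨s - 1, by omega⟩
      refine hWG C p k 𝕜 n N W M d D B₀ 𝓛 x hx _ _ hv hb hvw (fun i _ => hall i) _ F₂ hF₁ rfl
        ε (Units.mk0 ε₂ hε₂0)⁻¹ s' hP.hε ?_ hG₁' hG₂'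
      obtain ⟨q, hq⟩ := Nat.pow_dvd_pow p h12
      rw [Units.val_inv_eq_inv_val, inv_pow, Units.val_mk0, hq, pow_mul, hε₂.pow_eq_one, one_pow,
        inv_one]
    · have hs : t ≠ 0 := by rintro rfl; exact hcon ⟨by omega, rfl⟩
      obtain ⟨t', rfl⟩ : ∃ t', t = t' + 1 := ⟨t - 1, by omega⟩
      refine hWG C p k 𝕜 n N W M d D B₀ 𝓛 x hx _ _ hb hv (LI_symm hvw) (fun i _ => hall i)
        F₂ _ rfl hF₁ (Units.mk0 ε₂ hε₂0)⁻¹ ε t' ?_ ?_ hG₂' hG₁'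
      · rw [Units.val_inv_eq_inv_val]
        exact hε₂.inv
      · obtain ⟨q, hq⟩ := Nat.pow_dvd_pow p h12
        rw [hq, pow_mul, hP.hε.pow_eq_one, one_pow]
  obtain ⟨rfl, rfl⟩ := hs0
  have hε₁ : ε = 1 := Units.ext (by
    have := hP.hε.pow_eq_one
    simpa using this)
  have hε₂' : ε₂ = 1 := by
    have := hε₂.pow_eq_one
    simpa using this
  have e₁ := hP.hexp
  rw [hε₁, mul_one] at e₁
  have hTm := hTmem (j, l, ⟨A, Nat.lt_succ_of_le hP.hAW⟩, ⟨B, Nat.lt_succ_of_le hP.hBW⟩)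
    hjl hbl hP.hB hP.hμ x hx (fun i => ⟨x i, (hall i).le⟩) Y
    (fun i => rfl) (fun i => rfl) hall ζ' (Units.mk0 ζ₂ hζ₂0) f₁ f₂ hf₁ hff₁ hf₂ hff₂ e₁ (by
      rw [hmul, hζe, hε₂', mul_one]
      rfl)
  have hmemS : ∀ i, 𝓛.red ⟨x i, (hall i).le⟩ ∈ S := by
    intro i
    rw [Set.mem_iUnion]
    exact ⟨(_, i), _, hTm, rfl⟩
  have h1 := hG₁ κ Y X j l A B g' 0 ζ' ε hP ⟨x j, (hall j).le⟩ ⟨x l, (hall l).le⟩ rfl rfl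
    (hall j) (hall l) (hmemS j) (hmemS l)
  refine ⟨A * B * (g' * p ^ 0) ^ 2, ?_, ?_, hP.hrel⟩
  · have h2 := hpf.out.pos
    have h3 := hP.hA
    have h4 := hP.hB
    have h5 := hP.hg
    positivity
  · exact Nat.mul_le_mul (Nat.mul_le_mul hP.hAW hP.hBW) (Nat.pow_le_pow_left
      (Nat.mul_le_mul h1 le_rfl) 2)

end Pool.Agent.Y839.ZX
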